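import Mathlib
import Pool.Agent.Q217.MZ.KZ4

/-!
# MP_807c24_nt: polynomials in `2 π i` and multiple zeta values

A pattern is a list of letters `(a, b)`; its index at `n` has the arguments `a n + b`. Let `w_1, ..., w_k` be patterns such
that the constant arguments in front of the first growing argument of `w_i` are all equal to an even number `2 b_i` (or there
are none), such as in `ζ(2, n)`, `ζ(2, 2, n, 3)`, `ζ(4, 4, 4, 2 n + 1)`. Let `P` be a polynomial of bounded degree in `μ` and
in variables for the `w_i`, with integer coefficients of absolute value at most `C ^ n`. If `P` vanishes, or is very small, at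
`μ = 2 π i` and the multiple zeta values `ζ(w_i(n))`, `n` large, then for all `n' ≥ 2` it vanishes at `μ` and the `Z(w_i(n'))`
for all `μ` in a commutative `ℚ`-algebra and all families `Z` in it with the stuffle product and the even values
`Z(2 b) = -B_{2b} μ ^ (2 b) / (2 (2 b)!)`.

For `(μ, Φ)` in `M(k)` the coefficients of `Φ` (up to sign) are such a family, by theorems of Drinfeld and Furusho; so `P`,
written in the coordinates of the problem, lies in the ideal `I`.
-/

set_option autoImplicit false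

namespace Pool.Agent.Results.MP_807c24_nt.EvenBlocks

/-- `trunc [s_1, ..., s_r] m` is the sum of `∏ k_i ^ (-s_i)` over `m > k_1 > ... > k_r ≥ 1` -/
noncomputable def trunc : List ℕ → ℕ → ℝ
  | [], _ => 1
  | s :: l, m => ∑ j ∈ Finset.Ico 1 m, trunc l j / (j : ℝ) ^ s

/-- the multiple zeta value `ζ(s_1, ..., s_r)`, `s_1` belongs to the largest variable -/
noncomputable def mzv : List ℕ → ℝ
  | [] => 1
  | s :: l => ∑' k : ℕ, trunc l (k + 1) / ((k + 1 : ℕ) : ℝ) ^ s

/-- admissible indices: all entries are at least one, the first one is at least two; the empty index is admissible -/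
def AdmissibleIndex (l : List ℕ) : Prop := (∀ a ∈ l, 1 ≤ a) ∧ ∀ a t, l = a :: t → 2 ≤ a

/-- the list of the indices in the stuffle (series) product of two indices -/
def stuffles : List ℕ → List ℕ → List (List ℕ)
  | [], l => [l]
  | i :: k, [] => [i :: k]
  | i :: k, j :: l => (stuffles k (j :: l)).map (i :: ·) ++ (stuffles (i :: k) l).map (j :: ·) ++
      (stuffles k l).map ((i + j) :: ·)
termination_by k l => k.length + l.length

/-- `Z` has the stuffle product: `Z(∅) = 1` and `Z(k) Z(l) = ∑ Z(m)` over the indices `m` of the stuffle product of `k` and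
`l`, for all admissible indices `k` and `l` -/
def HasStuffleProduct {A : Type} [CommRing A] (Z : List ℕ → A) : Prop :=
  Z [] = 1 ∧ ∀ k l : List ℕ, AdmissibleIndex k → AdmissibleIndex l → Z k * Z l = ((stuffles k l).map Z).sum

/-- the even values `Z(2 b)` are those of an associator with the parameter `μ` -/
def HasEvenValues {A : Type} [CommRing A] [Algebra ℚ A] (μ : A) (Z : List ℕ → A) : Prop :=
  ∀ b : ℕ, 1 ≤ b → Z [2 * b] = algebraMap ℚ A (-bernoulli (2 * b) / (2 * (2 * b).factorial)) * μ ^ (2 * b)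

/-- admissible patterns: the letter `(0, 0)` does not occur, and a constant first letter is at least two -/
def AdmissiblePattern (w : List (ℕ × ℕ)) : Prop :=
  (∀ x ∈ w, x ≠ (0, 0)) ∧ ∀ x l, w = x :: l → x.1 = 0 → 2 ≤ x.2

/-- the index with the arguments `a n + b` -/
def index (n : ℕ) (w : List (ℕ × ℕ)) : List ℕ := w.map fun x => x.1 * n + x.2

/-- the constant arguments in front of the first growing argument -/
def constantPrefix : List (ℕ × ℕ) → List ℕ
  | [] => []
  | x :: l => if x.1 = 0 then x.2 :: constantPrefix l else []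

/-- the constant arguments in front are all equal to one positive even number -/
def EvenBlock (w : List (ℕ × ℕ)) : Prop := ∃ b s : ℕ, 1 ≤ b ∧ constantPrefix w = List.replicate s (2 * b)

lemma trunc_eq : ∀ l m, trunc l m = Pool.Agent.TH507.WD.hr l m := by
  intro l
  induction l with
  | nil => intro m; rw [trunc, Pool.Agent.TH507.WD.hr]
  | cons s l ih =>
    intro m
    rw [trunc, Pool.Agent.TH507.WD.hr]
    exact Finset.sum_congr rfl fun j _ => by rw [ih]

lemma mzv_eq : mzv = Pool.Agent.TH507.WD.mz := by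
  funext l
  cases l with
  | nil => rw [mzv, Pool.Agent.TH507.WD.mz]
  | cons s l =>
    rw [mzv, Pool.Agent.TH507.WD.mz]
    exact tsum_congr fun k => by rw [trunc_eq]

lemma stuffles_eq : ∀ k l, stuffles k l = Pool.Agent.TH507.DS.stI k l := by
  intro k l
  induction k, l using Pool.Agent.TH507.DS.stI.induct with
  | case1 l => rw [stuffles, Pool.Agent.TH507.DS.stI]
  | case2 i k => rw [stuffles, Pool.Agent.TH507.DS.stI]
  | case3 i k j l ih1 ih2 ih3 => rw [stuffles, Pool.Agent.TH507.DS.stI, ih1, ih2, ih3]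

lemma assoc_of {A : Type} [CommRing A] [Algebra ℚ A] {μ : A} {Z : List ℕ → A} (h : HasStuffleProduct Z)
    (he : HasEvenValues μ Z) : Pool.Agent.Q217.MZ.AssocL μ Z :=
  ⟨⟨h.1, fun k l hk hl => by rw [h.2 k l hk hl, stuffles_eq]⟩, he⟩

lemma adm_of {w : List (ℕ × ℕ)} (h : AdmissiblePattern w) : Pool.Agent.Q217.MZ.AdmW w := by
  refine ⟨fun x hx hx0 => ?_, h.2⟩
  have h1 := h.1 x hx
  by_contra hcon
  exact h1 (Prod.ext hx0 (by simp only; omega))

lemma prefix_eq (w : List (ℕ × ℕ)) :
    Pool.Agent.Q217.MZ.cp w = (constantPrefix w).map fun b => ((0 : ℕ), b) := by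
  induction w with
  | nil => rfl
  | cons x l ih =>
    rw [constantPrefix]
    by_cases h : x.1 = 0
    · rw [if_pos h, Pool.Agent.Q217.MZ.cp_zero l h, List.map_cons, ih]
      congr 1
      exact Prod.ext h rfl
    · rw [if_neg h, Pool.Agent.Q217.MZ.cp_pos l h, List.map_nil]

lemma block_of {w : List (ℕ × ℕ)} (h : EvenBlock w) : Pool.Agent.Q217.MZ.EB w := by
  obtain ⟨b, s, hb, hs⟩ := h
  exact ⟨b, s, hb, by rw [prefix_eq, hs, List.map_replicate]⟩

/-- **Theorem.** Let `w_1, ..., w_k` be admissible patterns whose constant arguments in front of the first growing argument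
are all equal to one even number (depending on the pattern), and `D, J ≥ 0`. There are `B, C > 1` and `n0` such that for all
`n ≥ n0` and all integer polynomials `f_0, ..., f_{J-1}` of degree at most `D` with coefficients of absolute value at most
`C ^ n`: if `|∑ (2 π i) ^ j f_j(ζ(w_1(n)), ..., ζ(w_k(n)))| ≤ B ^ (-n)`, then `∑ (2 π i) ^ j f_j(ζ(w_1(n')), ...) = 0` and
`∑ μ ^ j f_j(Z(w_1(n')), ..., Z(w_k(n'))) = 0`, for all `n' ≥ 2`, all `ℚ`-algebras `A`, all `μ` in `A` and all families `Z` in
`A` which have the stuffle product and the even values of an associator with the parameter `μ`. -/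
theorem result {k : ℕ} (w : Fin k → List (ℕ × ℕ)) (hw : ∀ i, AdmissiblePattern (w i)) (hE : ∀ i, EvenBlock (w i))
    (D J : ℕ) :
    ∃ B C : ℝ, 1 < B ∧ 1 < C ∧ ∃ n0 : ℕ, ∀ n : ℕ, n0 ≤ n → ∀ f : ℕ → MvPolynomial (Fin k) ℤ,
      (∀ j, (f j).totalDegree ≤ D) → (∀ j m, |(((f j).coeff m : ℤ) : ℝ)| ≤ C ^ n) →
      ‖∑ j ∈ Finset.range J, (2 * Real.pi * Complex.I) ^ j *
        MvPolynomial.aeval (fun i => ((mzv (index n (w i)) : ℝ) : ℂ)) (f j)‖ ≤ (B ^ n)⁻¹ →
      ∀ n' : ℕ, 2 ≤ n' →
        ∑ j ∈ Finset.range J, (2 * Real.pi * Complex.I) ^ j *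
          MvPolynomial.aeval (fun i => ((mzv (index n' (w i)) : ℝ) : ℂ)) (f j) = 0 ∧
        ∀ (A : Type) [CommRing A] [Algebra ℚ A] (μ : A) (Z : List ℕ → A), HasStuffleProduct Z → HasEvenValues μ Z →
          ∑ j ∈ Finset.range J, μ ^ j * MvPolynomial.aeval (fun i => Z (index n' (w i))) (f j) = 0 := by
  obtain ⟨B, C, hB, hC, n0, h⟩ := Pool.Agent.Q217.MZ.kz_poly D J w (fun i => adm_of (hw i)) fun i => block_of (hE i)
  refine ⟨B, C, hB, hC, n0, fun n hn f hf hc hsmall n' hn' => ?_⟩
  have h1 := h n hn f hf hc (by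
    rw [← mzv_eq]
    exact hsmall)
  refine ⟨?_, fun A _ _ μ Z hZ he => h1 A μ Z (assoc_of hZ he) n' hn'⟩
  have h2 := h1 ℂ (2 * Real.pi * Complex.I) _ Pool.Agent.Q217.MZ.AssocL_real n' hn'
  rw [← mzv_eq] at h2
  exact h2

end Pool.Agent.Results.MP_807c24_nt.EvenBlocks
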