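import Mathlib
import Pool.Agent.Q217.MZ.KZ6

/-!
# MP_807c24_nt: isobaric relations between `2 π i` and multiple zeta values with constant arguments in front

A pattern is a list of letters `(a, b)`; its index at `n` has the arguments `a n + b`. The constant weight of a pattern is
the sum of the constant arguments in front of the first growing argument. Consider polynomials in `μ`, of any degree less
than `J`, and in variables for admissible patterns `w_1, ..., w_k`, with integer coefficients of bounded height, which are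
isobaric of weight `S_1 n + S_2` (`μ` has weight one) and have monomials of constant weight at most four. If such a
polynomial vanishes, or is very small, at `μ = 2 π i` and the multiple zeta values `ζ(w_i(n))`, `n` large, then it vanishes at
`μ` and the `Z(w_i(n'))`, `n' ≥ 2`, for all `μ` in a commutative `ℚ`-algebra and all families `Z` in it with the stuffle
product and the relations `24 Z(2) = -μ²`, `1440 Z(4) = μ⁴`, `Z(2,1) = Z(3)`, `4 Z(3,1) = Z(4)`, `4 Z(2,2) = 3 Z(4)`,
`Z(2,1,1) = Z(4)`, in particular for the coefficients of associators.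
-/

set_option autoImplicit false

namespace Pool.Agent.Results.MP_807c24_nt.IsobaricRelations

/-- `trunc [s_1, ..., s_r] m` is the sum of `∏ k_i ^ (-s_i)` over `m > k_1 > ... > k_r ≥ 1` -/
noncomputable def trunc : List ℕ → ℕ → ℝ
  | [], _ => 1
  | s :: l, m => ∑ j ∈ Finset.Ico 1 m, trunc l j / (j : ℝ) ^ s

/-- the multiple zeta value `ζ(s_1, ..., s_r)`, `s_1` belongs to the largest variable -/
noncomputable def mzv : List ℕ → ℝ
  | [] => 1
  | s :: l => ∑' k : ℕ, trunc l (k + 1) / ((k + 1 : ℕ) : ℝ) ^ s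

/-- admissible indices: all entries are at least one, the first one is at least two; the empty index is admissible -/
def AdmissibleIndex (l : List ℕ) : Prop := (∀ a ∈ l, 1 ≤ a) ∧ ∀ a t, l = a :: t → 2 ≤ a

/-- the list of the indices in the stuffle (series) product of two indices -/
def stuffles : List ℕ → List ℕ → List (List ℕ)
  | [], l => [l]
  | i :: k, [] => [i :: k]
  | i :: k, j :: l => (stuffles k (j :: l)).map (i :: ·) ++ (stuffles (i :: k) l).map (j :: ·) ++
      (stuffles k l).map ((i + j) :: ·)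
termination_by k l => k.length + l.length

/-- `Z` has the stuffle product: `Z(∅) = 1` and `Z(k) Z(l) = ∑ Z(m)` over the indices `m` of the stuffle product of `k` and
`l`, for all admissible indices `k` and `l` -/
def HasStuffleProduct {A : Type} [CommRing A] (Z : List ℕ → A) : Prop :=
  Z [] = 1 ∧ ∀ k l : List ℕ, AdmissibleIndex k → AdmissibleIndex l → Z k * Z l = ((stuffles k l).map Z).sum

/-- the relations of weight two, three and four for the coefficients of an associator with the parameter `μ` -/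
def HasSmallRelations {A : Type} [CommRing A] (μ : A) (Z : List ℕ → A) : Prop :=
  24 * Z [2] = -μ ^ 2 ∧ 1440 * Z [4] = μ ^ 4 ∧ Z [2, 1] = Z [3] ∧ 4 * Z [3, 1] = Z [4] ∧ 4 * Z [2, 2] = 3 * Z [4] ∧
    Z [2, 1, 1] = Z [4]

/-- admissible patterns: the letter `(0, 0)` does not occur, and a constant first letter is at least two -/
def AdmissiblePattern (w : List (ℕ × ℕ)) : Prop :=
  (∀ x ∈ w, x ≠ (0, 0)) ∧ ∀ x l, w = x :: l → x.1 = 0 → 2 ≤ x.2

/-- the index with the arguments `a n + b` -/
def index (n : ℕ) (w : List (ℕ × ℕ)) : List ℕ := w.map fun x => x.1 * n + x.2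

/-- the sum of the constant arguments in front of the first growing argument -/
def constantWeight : List (ℕ × ℕ) → ℕ
  | [] => 0
  | x :: l => if x.1 = 0 then x.2 + constantWeight l else 0

lemma trunc_eq : ∀ l m, trunc l m = Pool.Agent.TH507.WD.hr l m := by
  intro l
  induction l with
  | nil => intro m; rw [trunc, Pool.Agent.TH507.WD.hr]
  | cons s l ih =>
    intro m
    rw [trunc, Pool.Agent.TH507.WD.hr]
    exact Finset.sum_congr rfl fun j _ => by rw [ih]

lemma mzv_eq : mzv = Pool.Agent.TH507.WD.mz := by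
  funext l
  cases l with
  | nil => rw [mzv, Pool.Agent.TH507.WD.mz]
  | cons s l =>
    rw [mzv, Pool.Agent.TH507.WD.mz]
    exact tsum_congr fun k => by rw [trunc_eq]

lemma stuffles_eq : ∀ k l, stuffles k l = Pool.Agent.TH507.DS.stI k l := by
  intro k l
  induction k, l using Pool.Agent.TH507.DS.stI.induct with
  | case1 l => rw [stuffles, Pool.Agent.TH507.DS.stI]
  | case2 i k => rw [stuffles, Pool.Agent.TH507.DS.stI]
  | case3 i k j l ih1 ih2 ih3 => rw [stuffles, Pool.Agent.TH507.DS.stI, ih1, ih2, ih3]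

lemma stI_of {A : Type} [CommRing A] {Z : List ℕ → A} (h : HasStuffleProduct Z) : Pool.Agent.Q217.MZ.StI Z :=
  ⟨h.1, fun k l hk hl => by rw [h.2 k l hk hl, stuffles_eq]⟩

lemma adm_of {w : List (ℕ × ℕ)} (h : AdmissiblePattern w) : Pool.Agent.Q217.MZ.AdmW w := by
  refine ⟨fun x hx hx0 => ?_, h.2⟩
  have h1 := h.1 x hx
  by_contra hcon
  exact h1 (Prod.ext hx0 (by simp only; omega))

lemma cw_eq (w : List (ℕ × ℕ)) : constantWeight w = (Pool.Agent.Q217.MZ.cp w).sum.2 := by
  induction w with
  | nil => rfl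
  | cons x l ih =>
    rw [constantWeight]
    by_cases h : x.1 = 0
    · rw [if_pos h, Pool.Agent.Q217.MZ.cp_zero l h, List.sum_cons, Prod.snd_add, ih]
    · rw [if_neg h, Pool.Agent.Q217.MZ.cp_pos l h]
      rfl

/-- **Theorem.** Let `w_1, ..., w_k` be admissible patterns, `D, J ≥ 0` and `S = (S_1, S_2)`. There is `N` such that for all
`H`, all `n ≥ n0(H)` and all integer polynomials `f_0, ..., f_{J-1}` of degree at most `D` and height at most `H`, such that
the monomials of `f_j` have constant weight at most four and weight `S_1 n + S_2 - j`: if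
`|∑ (2 π i) ^ j f_j(ζ(w_1(n)), ..., ζ(w_k(n)))| ≤ N ^ (-n)`, then `∑ μ ^ j f_j(Z(w_1(n')), ..., Z(w_k(n'))) = 0` for all
`n' ≥ 2`, all `ℚ`-algebras `A`, all `μ` in `A` and all `Z` with values in `A` which have the stuffle product and the
relations `HasSmallRelations μ Z`. -/
theorem result {k : ℕ} (w : Fin k → List (ℕ × ℕ)) (hw : ∀ i, AdmissiblePattern (w i)) (D J : ℕ) (S : ℕ × ℕ) :
    ∃ N : ℕ, 1 ≤ N ∧ ∀ H : ℕ, ∃ n0 : ℕ, ∀ n : ℕ, n0 ≤ n → ∀ f : ℕ → MvPolynomial (Fin k) ℤ,
      (∀ j < J, (f j).totalDegree ≤ D) → (∀ j < J, ∀ m, |(f j).coeff m| ≤ H) →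
      (∀ j < J, ∀ m ∈ (f j).support, ∑ i, m i * constantWeight (w i) ≤ 4 ∧ ∑ i, m i • (w i).sum + (0, j) = S) →
      ‖∑ j ∈ Finset.range J, (2 * Real.pi * Complex.I) ^ j *
        MvPolynomial.aeval (fun i => ((mzv (index n (w i)) : ℝ) : ℂ)) (f j)‖ ≤ ((N : ℝ) ^ n)⁻¹ →
      ∀ n' : ℕ, 2 ≤ n' → ∀ (A : Type) [CommRing A] [Algebra ℚ A] (μ : A) (Z : List ℕ → A), HasStuffleProduct Z →
        HasSmallRelations μ Z →
        ∑ j ∈ Finset.range J, μ ^ j * MvPolynomial.aeval (fun i => Z (index n' (w i))) (f j) = 0 := by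
  obtain ⟨N, hN, h⟩ := Pool.Agent.Q217.MZ.kz_four S D J w fun i => adm_of (hw i)
  refine ⟨N, hN, fun H => ?_⟩
  obtain ⟨n0, h⟩ := h H
  refine ⟨n0, fun n hn f hf hc hs hsmall n' hn' A _ _ μ Z hZ hR => ?_⟩
  set g : ℕ → MvPolynomial (Fin k) ℤ := fun j => if j < J then f j else 0 with hg
  have hgf : ∀ j < J, g j = f j := fun j hj => if_pos hj
  have hg0 : ∀ j, ¬ j < J → g j = 0 := fun j hj => if_neg hj
  have h1 := h n hn g (by
    intro j
    by_cases hj : j < J
    · rw [hgf j hj]
      exact hf j hj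
    · rw [hg0 j hj, MvPolynomial.totalDegree_zero]
      exact Nat.zero_le _) (by
    intro j s
    by_cases hj : j < J
    · rw [hgf j hj]
      exact hc j hj s
    · rw [hg0 j hj, MvPolynomial.coeff_zero, abs_zero]
      exact_mod_cast Nat.zero_le _) (by
    intro j s hs'
    by_cases hj : j < J
    · rw [hgf j hj] at hs'
      have := hs j hj s hs'
      simp only [cw_eq] at this
      exact this
    · rw [hg0 j hj, MvPolynomial.support_zero] at hs'
      exact absurd hs' (Finset.notMem_empty _)) (fun j hj => hg0 j (not_lt.2 hj)) (by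
    rw [← mzv_eq]
    refine le_of_eq_of_le ?_ hsmall
    congr 1
    exact Finset.sum_congr rfl fun j hj => by rw [hgf j (Finset.mem_range.1 hj)]; rfl) A μ Z (stI_of hZ) hR.1 hR.2.1 hR.2.2.1
    hR.2.2.2.1 hR.2.2.2.2.1 hR.2.2.2.2.2 n' hn'
  rw [← h1]
  exact Finset.sum_congr rfl fun j hj => by rw [hgf j (Finset.mem_range.1 hj)]; rfl

end Pool.Agent.Results.MP_807c24_nt.IsobaricRelations
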