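import Pool.Agent.Q311.KZ.E

/-!
# The transport of the Knizhnik-Zamolodchikov equation to algebraic points

Let `σ_a` (`a` in a finite set `A`) be different complex numbers, for instance `0` and `1`, and let
`G(z) = ∑_w L_w(z) w` (`w` words in the letters `a ∈ A`) be a solution of the equation
`G'(z) = (∑_a a / (z - σ_a)) G(z)` on a connected open set `U`, with group-like values, for instance the solution
`G_0` of the KZ equation (`σ = 0, 1`), which is normalised at the tangential base point `0`; the transport of
`G_0` to the other tangential base point is the KZ associator. The `L_w` are hyperlogarithms, for instance multiple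
polylogarithms in one variable.

Kontsevich's, Grothendieck's and Drinfeld's conjectures predict that the relations between `2 π i` and the
coefficients of the transport series hold for all points of a certain torsor: for the KZ associator these are the
pairs `(μ, Φ)` of an associator and its number `μ`, and for the transport to a sufficiently general algebraic point
all pairs `(μ, Φ)` with a group-like series `Φ`. We prove the second statement in bounded degree, bounded weight and
bounded height, where all bounds tend to infinity, at almost all algebraic points: there is `ω(T) → ∞` such that for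
all large `T`, all number fields `K` of degree at most `ω = ω(T)` and all embeddings `K → ℂ`, all points `s` of `K` of
height at most `T` in `U`, at distance at least `1 / ω` from the complement of `U` and of absolute value at most `ω`,
with at most `T ^ (1 / ω)` exceptions, have the property: if `P_a`, `a < ω`, are polynomials of degree at most `ω` in
each of the coefficients of the words of length at most `ω`, whose coefficients are integers of `K` with all
conjugates at most `T ^ ω`, and if `∑_a μ ^ a P_a(Φ)` vanishes at `μ = 2 π i` and `Φ = G(s)`, then it vanishes for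
all `μ` and all group-like series `Φ` with coefficients in arbitrary commutative rings (to which the integers of `K`
are mapped). The same holds with arbitrary complex numbers `ξ_a` instead of the powers of `2 π i`.

So for almost all `s` the evaluation at `(2 π i, G(s))` is injective on the polynomial functions of bounded degree,
weight and height on the product of the affine line and the prounipotent group `exp f_A`.

The proof has three parts. The coefficients `L_w` are linearly independent over the rational functions, and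
polynomials in the coefficients of a group-like series are linear combinations of coefficients, so that the relations
between the functions `L_w` hold for all group-like series. The field generated by the `L_w` is regular over `ℂ(z)`
(it is a tower of primitives, `Q311.KO`). Relations between the values at almost all algebraic points are
specialisations of relations between the functions (`Q311.MV`, `Y890.MV`).
-/

set_option autoImplicit false

open Filter NumberField Pool.Agent.Q311.KZ

namespace Pool.Agent.Results.MP_807c24_nt.TransportToAlgebraicPoints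

/-- the numbers of absolute value at most `k` at distance at least `1 / k` from the complement of `U` -/
def Inner (U : Set ℂ) (k : ℕ) : Set ℂ := {z | ‖z‖ ≤ k ∧ Metric.ball z (k : ℝ)⁻¹ ⊆ U}

/-- the polynomials `P a`, `a < k`, in the coefficients of the words of length at most `k` have degree at most `k` in
each of them, and their coefficients are integers of `K` with all conjugates at most `T ^ k` -/
def Bounded {A : Type} (k : ℕ) (K : Type) [Field K] [NumberField K] (T : ℝ)
    (P : Fin k → MvPolynomial (Wd A k) (𝓞 K)) : Prop :=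
  (∀ a y, (P a).degreeOf y ≤ k) ∧ ∀ a m (φ : K →+* ℂ), ‖φ (algebraMap (𝓞 K) K ((P a).coeff m))‖ ≤ T ^ k

/-- the value of the polynomial `p` at the series with the coefficients `Φ w`; the coefficients of `p` are mapped by
`f` -/
noncomputable def value {A : Type} {k : ℕ} {S R : Type} [CommRing S] [CommRing R] (f : S →+* R) (Φ : List A → R)
    (p : MvPolynomial (Wd A k) S) : R :=
  MvPolynomial.eval₂ f (fun w : Wd A k => Φ w.1) p

/-- the embedding of the integers -/
noncomputable def emb {K : Type} [Field K] [NumberField K] (io : K →+* ℂ) : 𝓞 K →+* ℂ :=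
  io.comp (algebraMap (𝓞 K) K)

/-- if `∑ ξ_a P_a` vanishes at the values `L_w(z)`, then it vanishes at all group-like series with coefficients in
commutative `ℂ`-algebras -/
def OnlyShuffles {A : Type} (L : List A → ℂ → ℂ) (k : ℕ) (K : Type) [Field K] [NumberField K] (io : K →+* ℂ)
    (ξ : Fin k → ℂ) (T : ℝ) (z : ℂ) : Prop :=
  ∀ P : Fin k → MvPolynomial (Wd A k) (𝓞 K), Bounded k K T P →
    ∑ a, ξ a * value (emb io) (fun w => L w z) (P a) = 0 →
    ∀ (R : Type) [CommRing R] [Algebra ℂ R] (Φ : List A → R), GroupLike Φ →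
      ∑ a, algebraMap ℂ R (ξ a) * value ((algebraMap ℂ R).comp (emb io)) Φ (P a) = 0

/-- if `∑ (2 π i) ^ a P_a` vanishes at the values `L_w(z)`, then `∑ μ ^ a P_a` vanishes at all pairs `(μ, Φ)` with a
group-like series `Φ`, with values in arbitrary commutative rings to which the integers of `K` are mapped; in fact all
`P_a` vanish at all `Φ` -/
def OnlyShufflesTwoPiI {A : Type} (L : List A → ℂ → ℂ) (k : ℕ) (K : Type) [Field K] [NumberField K]
    (io : K →+* ℂ) (T : ℝ) (z : ℂ) : Prop :=
  ∀ P : Fin k → MvPolynomial (Wd A k) (𝓞 K), Bounded k K T P →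
    ∑ a : Fin k, (2 * Real.pi * Complex.I) ^ (a : ℕ) * value (emb io) (fun w => L w z) (P a) = 0 →
    ∀ (R : Type) [CommRing R] (f : 𝓞 K →+* R) (Φ : List A → R), GroupLike Φ →
      (∀ a, value f Φ (P a) = 0) ∧ ∀ μ : R, ∑ a : Fin k, μ ^ (a : ℕ) * value f Φ (P a) = 0

/-- the numbers in `K` of height at most `T`, in `Inner U k`, which do not have the property `p` -/
def Exceptional (U : Set ℂ) (p : ℂ → Prop) (k : ℕ) (K : Type) [Field K] [NumberField K] (io : K →+* ℂ)
    (T : ℝ) : Set K :=
  {s | Y120.HtLe K T s ∧ io s ∈ Inner U k ∧ ¬ p (io s)}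

section proofs

variable {A : Type}

/-- the total polynomial -/
noncomputable def tot {k : ℕ} {K : Type} [Field K] [NumberField K] (io : K →+* ℂ) (ξ : Fin k → ℂ)
    (P : Fin k → MvPolynomial (Wd A k) (𝓞 K)) : MvPolynomial (Wd A k) ℂ :=
  ∑ a, MvPolynomial.C (ξ a) * MvPolynomial.map (emb io) (P a)

theorem tot_coeff {k : ℕ} {K : Type} [Field K] [NumberField K] (io : K →+* ℂ) (ξ : Fin k → ℂ)
    (P : Fin k → MvPolynomial (Wd A k) (𝓞 K)) (m : Wd A k →₀ ℕ) :
    (tot io ξ P).coeff m = ∑ a, ξ a * emb io ((P a).coeff m) := by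
  rw [tot, MvPolynomial.coeff_sum]
  exact Finset.sum_congr rfl fun a _ => by rw [MvPolynomial.coeff_C_mul, MvPolynomial.coeff_map]

theorem tot_eval {k : ℕ} {K : Type} [Field K] [NumberField K] (io : K →+* ℂ) (ξ : Fin k → ℂ)
    (P : Fin k → MvPolynomial (Wd A k) (𝓞 K)) {R : Type} [CommRing R] (f : ℂ →+* R) (Φ : List A → R) :
    value f Φ (tot io ξ P) = ∑ a, f (ξ a) * value (f.comp (emb io)) Φ (P a) := by
  unfold value
  rw [tot, MvPolynomial.eval₂_sum]
  refine Finset.sum_congr rfl fun a _ => ?_
  rw [MvPolynomial.eval₂_mul, MvPolynomial.eval₂_C, MvPolynomial.eval₂_map]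

theorem tot_deg {k : ℕ} {K : Type} [Field K] [NumberField K] (io : K →+* ℂ) (ξ : Fin k → ℂ) {T : ℝ}
    (P : Fin k → MvPolynomial (Wd A k) (𝓞 K)) (hP : Bounded k K T P) (y : Wd A k) :
    (tot io ξ P).degreeOf y ≤ k := by
  classical
  rw [MvPolynomial.degreeOf_le_iff]
  intro m hm
  rw [MvPolynomial.mem_support_iff, tot_coeff] at hm
  obtain ⟨a, -, ha⟩ := Finset.exists_ne_zero_of_sum_ne_zero hm
  have h1 : (P a).coeff m ≠ 0 := by
    intro h0
    rw [h0, map_zero, mul_zero] at ha
    exact ha rfl
  exact (MvPolynomial.monomial_le_degreeOf y (MvPolynomial.mem_support_iff.2 h1)).trans (hP.1 a y)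

theorem tot_in {k : ℕ} {K : Type} [Field K] [NumberField K] (io : K →+* ℂ) (ξ : Fin k → ℂ) {T : ℝ}
    (P : Fin k → MvPolynomial (Wd A k) (𝓞 K)) (hP : Bounded k K T P) :
    Q311.MV.CoefIn k K io ξ T (tot io ξ P) :=
  fun m => ⟨fun a => (P a).coeff m, fun a φ => hP.2 a m φ, tot_coeff io ξ P m⟩

open Classical in
theorem tot_cf {k : ℕ} {K : Type} [Field K] [NumberField K] (io : K →+* ℂ) (ξ : Fin k → ℂ)
    (P : Fin k → MvPolynomial (Wd A k) (𝓞 K)) (v : List A) :
    cf (tot io ξ P) v = ∑ a, ξ a * emb io (cf (P a) v) := by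
  set E : Finset (Wd A k →₀ ℕ) := Finset.univ.biUnion fun a => (P a).support with hE
  have h1 : (tot io ξ P).support ⊆ E := by
    intro m hm
    rw [MvPolynomial.mem_support_iff, tot_coeff] at hm
    obtain ⟨a, -, ha⟩ := Finset.exists_ne_zero_of_sum_ne_zero hm
    rw [hE, Finset.mem_biUnion]
    refine ⟨a, Finset.mem_univ _, MvPolynomial.mem_support_iff.2 fun h0 => ?_⟩
    rw [h0, map_zero, mul_zero] at ha
    exact ha rfl
  rw [cf_eq _ v E h1]
  have h2 : ∀ a, cf (P a) v = ∑ m ∈ E, (P a).coeff m * (((N m : Multiset (List A)).count v : ℕ) : 𝓞 K) :=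
    fun a => cf_eq _ v E (Finset.subset_biUnion_of_mem (fun a => (P a).support) (Finset.mem_univ a))
  simp only [h2, map_sum, Finset.mul_sum]
  rw [Finset.sum_comm]
  refine Finset.sum_congr rfl fun m _ => ?_
  rw [tot_coeff, Finset.sum_mul]
  refine Finset.sum_congr rfl fun a _ => ?_
  rw [map_mul, map_natCast]
  ring

theorem inner_up {U : Set ℂ} {k : ℕ} {z : ℂ} (h : z ∈ Inner U k) :
    (fun _ : Unit => z) ∈ Y890.MV.InnerM (up U) k := by
  refine ⟨?_, ?_⟩
  · rw [pi_norm_const]
    exact h.1
  · intro x hx
    refine h.2 ?_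
    rw [Metric.mem_ball] at hx ⊢
    exact lt_of_le_of_lt (dist_le_pi_dist x (fun _ : Unit => z) ()) hx

end proofs

theorem result {A : Type} [Fintype A] [DecidableEq A] (σ : A → ℂ) (hσ : Function.Injective σ) (U : Set ℂ)
    (hU : IsPreconnected U) (hUo : IsOpen U) (hne : U.Nonempty) (L : List A → ℂ → ℂ) (hL : Transport σ U L) :
    ∃ (ω : ℝ → ℕ) (T₀ : ℝ), Tendsto ω atTop atTop ∧ Monotone ω ∧ ∀ T, T₀ ≤ T → 0 < ω T ∧
      ∀ (K : Type) [Field K] [NumberField K], Module.finrank ℚ K ≤ ω T → ∀ io : K →+* ℂ,
        ((Exceptional U (OnlyShufflesTwoPiI L (ω T) K io T) (ω T) K io T).Finite ∧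
          ((Exceptional U (OnlyShufflesTwoPiI L (ω T) K io T) (ω T) K io T).ncard : ℝ) ≤
            T ^ ((ω T : ℝ)⁻¹)) ∧
        ∀ ξ : Fin (ω T) → ℂ, (Exceptional U (OnlyShuffles L (ω T) K io ξ T) (ω T) K io T).Finite ∧
          ((Exceptional U (OnlyShuffles L (ω T) K io ξ T) (ω T) K io T).ncard : ℝ) ≤
            T ^ ((ω T : ℝ)⁻¹) := by
  classical
  obtain ⟨ω, T₀, h1, h2, h3⟩ := spec_words hU hUo hne hL
  refine ⟨ω, T₀, h1, h2, fun T hT => ⟨(h3 T hT).1, fun K _ _ hK io => ?_⟩⟩
  have hmap : Function.Injective (fun (s : K) (_ : Unit) => s) := fun s t h => congrFun h ()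
  have hfew : ∀ (ξ : Fin (ω T) → ℂ) (p : ℂ → Prop),
      (∀ z, Q311.MV.SpecAt (up U) (fun w : Wd A (ω T) => lft (L w.1)) (ω T) K io ξ T (fun _ => z) → p z) →
      (Exceptional U p (ω T) K io T).Finite ∧
        ((Exceptional U p (ω T) K io T).ncard : ℝ) ≤ T ^ ((ω T : ℝ)⁻¹) := by
    intro ξ p hp
    obtain ⟨h4, h5⟩ := (h3 T hT).2 K hK io ξ
    have hsub : (fun (s : K) (_ : Unit) => s) '' Exceptional U p (ω T) K io T ⊆
        {s : Unit → K | (∀ j, Y120.HtLe K T (s j)) ∧ (fun j => io (s j)) ∈ Y890.MV.InnerM (up U) (ω T) ∧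
            ¬ Q311.MV.SpecAt (up U) (fun w : Wd A (ω T) => lft (L w.1)) (ω T) K io ξ T
              (fun j => io (s j))} := by
      rintro _ ⟨s, ⟨hs1, hs2, hs3⟩, rfl⟩
      exact ⟨fun _ => hs1, inner_up hs2, fun hs => hs3 (hp _ hs)⟩
    have hfin : (Exceptional U p (ω T) K io T).Finite :=
      Set.Finite.of_finite_image (h4.subset hsub) hmap.injOn
    refine ⟨hfin, le_trans ?_ h5⟩
    rw [Nat.cast_le, ← Set.ncard_image_of_injective _ hmap]
    exact Set.ncard_le_ncard hsub h4
  have hcf : ∀ (ξ : Fin (ω T) → ℂ) (z : ℂ),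
      Q311.MV.SpecAt (up U) (fun w : Wd A (ω T) => lft (L w.1)) (ω T) K io ξ T (fun _ => z) →
      ∀ P : Fin (ω T) → MvPolynomial (Wd A (ω T)) (𝓞 K), Bounded (ω T) K T P →
      ∑ a, ξ a * value (emb io) (fun w => L w z) (P a) = 0 → ∀ v, cf (tot io ξ P) v = 0 := by
    intro ξ z hs P hP h0 v
    refine cf_spec hσ hU hUo hne hL hs (tot io ξ P) (tot_deg io ξ P hP) (tot_in io ξ P hP) ?_ v
    have h6 := tot_eval io ξ P (RingHom.id ℂ) (fun w => L w z)
    rw [RingHom.id_comp] at h6
    simp only [RingHom.id_apply] at h6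
    rw [h0] at h6
    exact h6
  refine ⟨hfew (fun a => (2 * Real.pi * Complex.I) ^ (a : ℕ)) _ ?_, fun ξ => hfew ξ _ ?_⟩
  · intro z hs P hP h0 R _ f Φ hΦ
    have h6 := hcf _ z hs P hP h0
    have h7 : ∀ a, value f Φ (P a) = 0 := by
      intro a
      refine vanish f (P a) (fun v => ?_) Φ hΦ
      have h8 := h6 v
      rw [tot_cf] at h8
      have h9 := tpi_indep K io (fun a => algebraMap (𝓞 K) K (cf (P a) v)) (by
        rw [← h8]
        refine Finset.sum_congr rfl fun a _ => ?_
        rw [mul_comm]
        rfl) a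
      exact (map_eq_zero_iff _ (FaithfulSMul.algebraMap_injective (𝓞 K) K)).1 h9
    exact ⟨h7, fun μ => Finset.sum_eq_zero fun a _ => by rw [h7 a, mul_zero]⟩
  · intro z hs P hP h0 R _ _ Φ hΦ
    have h6 := hcf _ z hs P hP h0
    rw [← tot_eval io ξ P (algebraMap ℂ R) Φ]
    exact vanish (algebraMap ℂ R) (tot io ξ P) h6 Φ hΦ

end Pool.Agent.Results.MP_807c24_nt.TransportToAlgebraicPoints
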